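import Pool.Agent.Helper76.FT.GoalsC

/-! Packet FT-LOW of MP_39e2b7_an: a lower bound for the momentum at time `0` gives a lower bound
for the height at all times. -/

set_option autoImplicit false

namespace Pool.Agent.Helper11.FT

open Complex Set Filter Topology Pool.Agent.Helper76.FT

theorem isOpen_Str (ρ : ℝ) : IsOpen (Str ρ) := by
  have : Str ρ = (fun z : ℂ => |z.im|) ⁻¹' Iio ρ := rfl
  rw [this]
  exact isOpen_Iio.preimage (Complex.continuous_im.abs)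

theorem real_mem_Str {ρ : ℝ} (hρ : 0 < ρ) (x : ℝ) : (x : ℂ) ∈ Str ρ := by
  show |(x : ℂ).im| < ρ
  simpa using hρ

theorem ft_low : GReg → GChart → GOM → GTorP → GLow := by
  intro _ hChart hOM hTorP S hS
  obtain ⟨k0, M, hk0, hM, hP⟩ := hTorP S hS
  refine ⟨1 / M, by positivity, ?_⟩
  intro δ ρ w c hw h hh
  obtain ⟨_, _, hp1, _, _, _, hb⟩ := hP δ ρ w c hw
  by_cases hh0 : h ≤ 0
  · intro x t ht
    have h1 := (hw.pos x t ht).1
    have h2 : 1 / M * h ≤ 0 := mul_nonpos_of_nonneg_of_nonpos (by positivity) hh0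
    linarith
  push Not at hh0
  have h01 : (0 : ℝ) ∈ Icc (0:ℝ) 1 := ⟨le_refl _, zero_le_one⟩
  have h11 : (1 : ℝ) ∈ Icc (0:ℝ) 1 := ⟨zero_le_one, le_refl _⟩
  have hM0 : ∀ x : ℝ, 1 / M * h ≤ (w (x : ℂ) 0).im := by
    intro x
    have h1 := (hb x 0 h01).2.1
    have h2 := hh x
    rw [one_div, inv_mul_le_iff₀ hM]
    linarith
  have hM1 : ∀ x : ℝ, 1 / M * h ≤ (w (x : ℂ) 1).im := by
    intro x
    have h1 := (hb x 1 h11).2.1
    have h2 := hh x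
    have h3 := hp1 (x : ℂ) (real_mem_Str hw.hρ x)
    rw [h3] at h1
    rw [one_div, inv_mul_le_iff₀ hM]
    linarith
  -- continuity of the height
  have hcont : ContinuousOn (fun z : ℝ × ℝ => (w (z.1 : ℂ) z.2).im)
      (Icc (0:ℝ) 1 ×ˢ Icc (0:ℝ) 1) := by
    have h1 : ContinuousOn (fun z : ℝ × ℝ => w (z.1 : ℂ) z.2) (Icc (0:ℝ) 1 ×ˢ Icc (0:ℝ) 1) := by
      have h2 : ContinuousOn (fun z : ℝ × ℝ => ((z.1 : ℂ), z.2)) (Icc (0:ℝ) 1 ×ˢ Icc (0:ℝ) 1) :=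
        (by fun_prop : Continuous (fun z : ℝ × ℝ => ((z.1 : ℂ), z.2))).continuousOn
      exact hw.sh.cont.comp h2 (fun z hz => ⟨real_mem_Str hw.hρ z.1, hz.2⟩)
    exact Complex.continuous_im.comp_continuousOn h1
  have hK : IsCompact (Icc (0:ℝ) 1 ×ˢ Icc (0:ℝ) 1) := isCompact_Icc.prod isCompact_Icc
  obtain ⟨z₀, hz₀, hmin⟩ := hK.exists_isMinOn ⟨((0:ℝ), (0:ℝ)), h01, h01⟩ hcont
  set μ : ℝ := (w (z₀.1 : ℂ) z₀.2).im with hμ
  have hμle : ∀ x : ℝ, ∀ t ∈ Icc (0:ℝ) 1, μ ≤ (w (x : ℂ) t).im := by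
    intro x t ht
    have hper : Function.Periodic (fun x : ℝ => w (x : ℂ) t) 1 := by
      intro y
      have := hw.sh.per (y : ℂ) (real_mem_Str hw.hρ y) t ht
      simpa using this
    obtain ⟨y, hy, hxy⟩ := hper.exists_mem_Ico₀ one_pos x
    have hxy' : w (x : ℂ) t = w (y : ℂ) t := hxy
    rw [hxy']
    exact hmin (show (y, t) ∈ Icc (0:ℝ) 1 ×ˢ Icc (0:ℝ) 1 from ⟨⟨hy.1, hy.2.le⟩, ht⟩)
  suffices hfin : 1 / M * h ≤ μ by
    intro x t ht
    exact hfin.trans (hμle x t ht)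
  by_contra hlt
  push Not at hlt
  -- the first time at which the minimum is attained
  have hK' : IsCompact ((Icc (0:ℝ) 1 ×ˢ Icc (0:ℝ) 1) ∩
      (fun z : ℝ × ℝ => (w (z.1 : ℂ) z.2).im) ⁻¹' {μ}) :=
    hK.of_isClosed_subset (hcont.preimage_isClosed_of_isClosed hK.isClosed isClosed_singleton)
      inter_subset_left
  obtain ⟨z₁, hz₁, hmin1⟩ := hK'.exists_isMinOn ⟨z₀, hz₀, rfl⟩ continuous_snd.continuousOn
  obtain ⟨⟨hx1, ht1⟩, hv1⟩ := hz₁
  simp only [mem_preimage, mem_singleton_iff] at hv1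
  have ht0 : 0 < z₁.2 := by
    rcases lt_or_eq_of_le ht1.1 with h1 | h1
    · exact h1
    · exfalso
      have h2 := hM0 z₁.1
      rw [← h1] at hv1
      rw [hv1] at h2
      linarith
  have ht1' : z₁.2 < 1 := by
    rcases lt_or_eq_of_le ht1.2 with h1 | h1
    · exact h1
    · exfalso
      have h2 := hM1 z₁.1
      rw [h1] at hv1
      rw [hv1] at h2
      linarith
  have hfr : Int.fract z₁.2 = z₁.2 := Int.fract_eq_self.2 ⟨ht1.1, ht1'⟩
  have hnint : ∀ n : ℤ, z₁.2 ≠ n := by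
    intro n hn
    have h1 : (0 : ℝ) < n := hn ▸ ht0
    have h2 : (n : ℝ) < 1 := hn ▸ ht1'
    have h3 : 0 < n := by exact_mod_cast h1
    have h4 : n < 1 := by exact_mod_cast h2
    omega
  have hTH : TH w (wt w) z₁ := by
    refine ⟨fun ζ => w ((z₁.1 : ℂ) + ζ) (Int.fract z₁.2), ?_,
      (hChart S hS δ ρ w c hw z₁).2.1 hnint⟩
    have h1 : AnalyticAt ℂ (fun z => w z (Int.fract z₁.2)) (z₁.1 : ℂ) := by
      rw [hfr]
      exact (hw.sh.hol z₁.2 ht1).analyticAt ((isOpen_Str ρ).mem_nhds (real_mem_Str hw.hρ z₁.1))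
    have h2 : AnalyticAt ℂ (fun ζ : ℂ => (z₁.1 : ℂ) + ζ) 0 :=
      analyticAt_const.add analyticAt_id
    exact AnalyticAt.comp_of_eq (g := fun z => w z (Int.fract z₁.2)) h1 h2 (by simp)
  have hval : (wt w z₁).im = μ := by
    unfold wt
    rw [hfr]
    exact hv1
  have hall : ∀ z : ℝ × ℝ, μ ≤ (wt w z).im := fun z =>
    hμle z.1 _ ⟨Int.fract_nonneg _, (Int.fract_lt_one _).le⟩
  rcases ((hOM S hS δ ρ w c hw z₁).1 (wt w) hTH).1 with hc | ho
  · -- locally constant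
    have h1 : ∀ᶠ t in 𝓝 z₁.2, wt w (z₁.1, t) = wt w z₁ := by
      have h2 : Tendsto (fun t : ℝ => (z₁.1, t)) (𝓝 z₁.2) (𝓝 (z₁.1, z₁.2)) :=
        (by fun_prop : Continuous (fun t : ℝ => (z₁.1, t))).tendsto _
      exact h2.eventually hc
    have h3 : ∀ᶠ t in 𝓝[<] z₁.2, wt w (z₁.1, t) = wt w z₁ ∧ 0 < t ∧ t < z₁.2 := by
      filter_upwards [h1.filter_mono nhdsWithin_le_nhds,
        (lt_mem_nhds ht0).filter_mono nhdsWithin_le_nhds, self_mem_nhdsWithin] with t h4 h5 h6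
      exact ⟨h4, h5, h6⟩
    obtain ⟨t, h4, h5, h6⟩ := h3.exists
    have hfr' : Int.fract t = t := Int.fract_eq_self.2 ⟨h5.le, h6.trans ht1'⟩
    have h7 : (w (z₁.1 : ℂ) t).im = μ := by
      have h8 : (wt w (z₁.1, t)).im = μ := by rw [h4, hval]
      unfold wt at h8
      simp only at h8
      rwa [hfr'] at h8
    have h9 := hmin1 (show (z₁.1, t) ∈ (Icc (0:ℝ) 1 ×ˢ Icc (0:ℝ) 1) ∩
      (fun z : ℝ × ℝ => (w (z.1 : ℂ) z.2).im) ⁻¹' {μ} from
        ⟨⟨hx1, ⟨h5.le, (h6.trans ht1').le⟩⟩, h7⟩)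
    simp only [mem_ofPred_eq] at h9
    linarith
  · -- open
    have h1 : {v : ℂ | μ ≤ v.im} ∈ 𝓝 (wt w z₁) := ho (by
      rw [Filter.mem_map]
      exact Filter.univ_mem' hall)
    have h2 : ∀ᶠ s : ℝ in 𝓝 0, μ ≤ (wt w z₁ - s * I).im := by
      have h3 : Tendsto (fun s : ℝ => wt w z₁ - s * I) (𝓝 0) (𝓝 (wt w z₁ - (0 : ℝ) * I)) :=
        (by fun_prop : Continuous (fun s : ℝ => wt w z₁ - s * I)).tendsto _
      simp only [ofReal_zero, zero_mul, sub_zero] at h3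
      exact h3.eventually h1
    have h4 : ∀ᶠ s : ℝ in 𝓝[>] 0, μ ≤ (wt w z₁ - s * I).im ∧ 0 < s := by
      filter_upwards [h2.filter_mono nhdsWithin_le_nhds, self_mem_nhdsWithin] with s h5 h6
      exact ⟨h5, h6⟩
    obtain ⟨s, h5, h6⟩ := h4.exists
    simp only [sub_im, mul_im, ofReal_re, I_im, mul_one, ofReal_im, I_re, mul_zero, add_zero,
      hval] at h5
    linarith

end Pool.Agent.Helper11.FT
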